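import Pool.Agent.P.MP_dca9d4_lc.Semi

set_option autoImplicit false

namespace Pool.Agent.Results.MP_dca9d4_lc.Semigroup

/-- For every `n ≥ 3` there is a system of `(n - 2).choose ((n - 2) / 2)` equations in `n` unknowns
that is independent over the free semigroup on two letters and has a nonperiodic solution. -/
theorem result (n : ℕ) (hn : 3 ≤ n) :
    ∃ S : Finset (List (Fin n) × List (Fin n)),
      (∀ e ∈ S, e.1 ≠ [] ∧ e.2 ≠ []) ∧ S.card = (n - 2).choose ((n - 2) / 2) ∧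
      (∀ T : Finset (List (Fin n) × List (Fin n)), T ⊂ S →
        ∃ f : Fin n → List (Fin 2), (∀ i, f i ≠ []) ∧
          (∀ e ∈ T, e.1.flatMap f = e.2.flatMap f) ∧ ∃ e ∈ S, e.1.flatMap f ≠ e.2.flatMap f) ∧
      ∃ f : Fin n → List (Fin 2), (∀ i, f i ≠ []) ∧
        (∀ e ∈ S, e.1.flatMap f = e.2.flatMap f) ∧ ∃ i j, f i ++ f j ≠ f j ++ f i := by
  obtain ⟨d, rfl⟩ : ∃ d, n = d + 3 := ⟨n - 3, by omega⟩
  exact P.MP_dca9d4_lc.Semi.main d

end Pool.Agent.Results.MP_dca9d4_lc.Semigroup
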