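import Pool.Agent.P.MP_dca9d4_lc.Tr.Trans

set_option autoImplicit false

namespace Pool.Agent.Results.MP_dca9d4_lc.Transfer

/-- Every independent system of word equations in `n` unknowns over a free monoid yields an
independent system of the same size in `2 n + 1` unknowns over the free semigroup. -/
theorem result (A : Type*) [Nonempty A] (n : ℕ) (S : Finset (List (Fin n) × List (Fin n)))
    (h : ∀ T, T ⊂ S → ∃ f : Fin n → List A,
      (∀ e ∈ T, e.1.flatMap f = e.2.flatMap f) ∧ ∃ e ∈ S, e.1.flatMap f ≠ e.2.flatMap f) :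
    ∃ S' : Finset (List (Fin (2 * n + 1)) × List (Fin (2 * n + 1))),
      (∀ e ∈ S', e.1 ≠ [] ∧ e.2 ≠ []) ∧ S'.card = S.card ∧
      ∀ T, T ⊂ S' → ∃ f : Fin (2 * n + 1) → List A, (∀ i, f i ≠ []) ∧
        (∀ e ∈ T, e.1.flatMap f = e.2.flatMap f) ∧ ∃ e ∈ S', e.1.flatMap f ≠ e.2.flatMap f :=
  Pool.Agent.P.MP_dca9d4_lc.Tr.transfer A n S h

end Pool.Agent.Results.MP_dca9d4_lc.Transfer
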